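import Mathlib
import Pool.Agent.Helper35.HSF.StH

/-! Module KDF of project HSF: the hypersurface is diffeomorphic to the sphere. -/

set_option autoImplicit false

namespace Helper76.HSF

open Helper35.HSF Helper35.MS Helper35.PI Helper35.PI2 Helper32.CL
open scoped ContDiff Manifold Topology ENNReal BigOperators
open MeasureTheory Set Filter

/-- a linear map to `ℝ^(n+1)` with kernel `ℝe` -/
private theorem exP {n : ℕ} (e : EE (n + 2)) (he : ‖e‖ = 1) :
    ∃ P : EE (n + 2) →L[ℝ] EE (n + 1), ∀ w, P w = 0 ↔ ∃ μ : ℝ, w = μ • e := by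
  have hF : Fact (Module.finrank ℝ (EE (n + 2)) = (n + 1) + 1) := ⟨by simp⟩
  have he0 : e ≠ 0 := by
    rintro rfl
    rw [norm_zero] at he
    exact zero_ne_one he
  let U := (OrthonormalBasis.fromOrthogonalSpanSingleton (𝕜 := ℝ) (n + 1) he0).repr
  refine ⟨(U.toContinuousLinearEquiv : (ℝ ∙ e)ᗮ →L[ℝ] EE (n + 1)).comp
    ((ℝ ∙ e)ᗮ).orthogonalProjectionOnto, fun w => ?_⟩
  have h1 : ((U.toContinuousLinearEquiv : (ℝ ∙ e)ᗮ →L[ℝ] EE (n + 1)).comp
      ((ℝ ∙ e)ᗮ).orthogonalProjectionOnto) w = U (((ℝ ∙ e)ᗮ).orthogonalProjectionOnto w) := rfl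
  rw [h1, U.map_eq_zero_iff]
  have h2 : ((ℝ ∙ e)ᗮ).orthogonalProjectionOnto w = 0 ↔ ((ℝ ∙ e)ᗮ).starProjection w = 0 := by
    rw [Submodule.starProjection_apply]
    exact Submodule.coe_eq_zero.symm
  rw [h2, Submodule.starProjection_apply_eq_zero_iff, Submodule.orthogonal_orthogonal,
    Submodule.mem_span_singleton]
  constructor
  · rintro ⟨μ, h⟩
    exact ⟨μ, h.symm⟩
  · rintro ⟨μ, h⟩
    exact ⟨μ, h.symm⟩

section

variable {n N : ℕ} {M : Type} [TopologicalSpace M] [ChartedSpace (EE n) M]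

/-- the derivative in the preferred chart -/
private theorem mf_eq [IsManifold (𝓡 n) ∞ M] {g : M → EE N}
    (hg : ContMDiff (𝓡 n) 𝓘(ℝ, EE N) ∞ g) (x : M) (v : EE n) :
    (mfderiv (𝓡 n) 𝓘(ℝ, EE N) g x v : EE N) =
      fderiv ℝ (fun y => g ((chartAt (EE n) x).symm y)) (chartAt (EE n) x x) v := by
  have hd : MDifferentiableAt (𝓡 n) 𝓘(ℝ, EE N) g x := (hg x).mdifferentiableAt (by simp)
  rw [hd.mfderiv]
  simp only [mfld_simps, fderivWithin_univ]
  rfl

/-- the derivative of the radial projection -/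
private theorem nrm_deriv {m : ℕ} {w : EE m} (hw : w ≠ 0) : ∃ D : EE m →L[ℝ] EE m,
    HasFDerivAt (fun w : EE m => ‖w‖⁻¹ • w) D w ∧ ∀ u, D u = 0 → ∃ c : ℝ, u = c • w := by
  have h1 : DifferentiableAt ℝ (fun w : EE m => ‖w‖⁻¹) w :=
    ((contDiffAt_norm ℝ (n := 1) hw).differentiableAt (by simp)).inv (norm_ne_zero_iff.2 hw)
  have h2 := h1.hasFDerivAt.smul (hasFDerivAt_id w)
  refine ⟨_, h2, fun u hu => ?_⟩
  have h3 : ‖w‖⁻¹ • u + (fderiv ℝ (fun w : EE m => ‖w‖⁻¹) w u) • w = 0 := by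
    simpa using hu
  refine ⟨-(‖w‖ * fderiv ℝ (fun w : EE m => ‖w‖⁻¹) w u), ?_⟩
  have h4 : ‖w‖ ≠ 0 := norm_ne_zero_iff.2 hw
  have h5 : ‖w‖ • (‖w‖⁻¹ • u + (fderiv ℝ (fun w : EE m => ‖w‖⁻¹) w u) • w) = 0 := by
    rw [h3, smul_zero]
  rw [smul_add, smul_smul, smul_smul, mul_inv_cancel₀ h4, one_smul] at h5
  rw [neg_smul]
  exact eq_neg_of_add_eq_zero_left h5

private theorem loc_diff [IsManifold (𝓡 n) ∞ M] {g : M → EE N}
    (hg : ContMDiff (𝓡 n) 𝓘(ℝ, EE N) ∞ g) (x : M) :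
    DifferentiableAt ℝ (fun y => g ((chartAt (EE n) x).symm y)) (chartAt (EE n) x x) := by
  have h1 : ContMDiffOn (𝓡 n) (𝓡 n) ∞ (chartAt (EE n) x).symm (chartAt (EE n) x).target :=
    contMDiffOn_chart_symm
  have h2 : ContMDiffOn (𝓡 n) 𝓘(ℝ, EE N) ∞ (fun y => g ((chartAt (EE n) x).symm y))
      (chartAt (EE n) x).target := hg.comp_contMDiffOn h1
  have h3 : ContDiffOn ℝ ∞ (fun y => g ((chartAt (EE n) x).symm y))
      (chartAt (EE n) x).target := contMDiffOn_iff_contDiffOn.1 h2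
  exact (h3.contDiffAt ((chartAt (EE n) x).open_target.mem_nhds
    (mem_chart_target _ x))).differentiableAt (by simp)

end

theorem hKDF (hKEX : StKEX) (hKIN : StKIN) (hKLO : StKLO) : StKDF := by
  intro n hn M _ _ _ _ _ _ g η h
  have hF : Fact (Module.finrank ℝ (EE (n + 1)) = n + 1) := ⟨finrank_euclideanSpace_fin⟩
  obtain ⟨e, he, heη⟩ := hKEX n hn M g η h
  obtain ⟨P, hP⟩ := exP e he
  have hP0 : ∀ x, P (g x) ≠ 0 := by
    intro x h0
    obtain ⟨μ, hμ⟩ := (hP _).1 h0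
    have h1 := h.gη x
    rw [hμ, real_inner_smul_left] at h1
    have h2 : μ = 0 := (mul_eq_zero.1 h1).resolve_right (heη x).ne'
    have h3 := h.ng x
    rw [hμ, h2, zero_smul, norm_zero] at h3
    exact zero_ne_one h3
  set ψ₀ : M → EE (n + 1) := fun x => ‖P (g x)‖⁻¹ • P (g x) with hψ₀def
  have hPg : ContMDiff (𝓡 n) 𝓘(ℝ, EE (n + 1)) ∞ (fun x => P (g x)) :=
    P.contDiff.contMDiff.comp h.sg
  have hψ₀ : ContMDiff (𝓡 n) 𝓘(ℝ, EE (n + 1)) ∞ ψ₀ := by
    intro x
    have h1 : ContDiffAt ℝ ∞ (fun w : EE (n + 1) => ‖w‖⁻¹ • w) (P (g x)) :=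
      ((contDiffAt_norm ℝ (hP0 x)).inv (norm_ne_zero_iff.2 (hP0 x))).smul contDiffAt_id
    exact ContMDiffAt.comp (g := fun w : EE (n + 1) => ‖w‖⁻¹ • w) x h1.contMDiffAt (hPg x)
  have hsph : ∀ x, ψ₀ x ∈ Metric.sphere (0 : EE (n + 1)) 1 := by
    intro x
    rw [mem_sphere_zero_iff_norm, hψ₀def]
    simp only
    rw [norm_smul, norm_inv, norm_norm, inv_mul_cancel₀ (norm_ne_zero_iff.2 (hP0 x))]
  set ψ : M → Metric.sphere (0 : EE (n + 1)) 1 := Set.codRestrict ψ₀ _ hsph with hψdef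
  have hψ : ContMDiff (𝓡 n) (𝓡 n) ∞ ψ := hψ₀.codRestrict_sphere hsph
  -- the derivative is injective
  have hinj : ∀ x, Function.Injective (mfderiv (𝓡 n) (𝓡 n) ψ x) := by
    intro x
    rw [injective_iff_map_eq_zero]
    intro v hv
    have h1 : mfderiv (𝓡 n) 𝓘(ℝ, EE (n + 1)) ψ₀ x v = 0 := by
      have h2 : ψ₀ = (fun z : Metric.sphere (0 : EE (n + 1)) 1 => (z : EE (n + 1))) ∘ ψ := rfl
      have h3 : MDifferentiableAt (𝓡 n) 𝓘(ℝ, EE (n + 1))
          (fun z : Metric.sphere (0 : EE (n + 1)) 1 => (z : EE (n + 1))) (ψ x) :=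
        (contMDiff_coe_sphere (n := n) (m := ∞) (ψ x)).mdifferentiableAt (by simp)
      rw [h2, mfderiv_comp_apply x h3 ((hψ x).mdifferentiableAt (by simp)), hv, map_zero]
    change (v : EE n) = 0
    have h1' : fderiv ℝ (fun y => ψ₀ ((chartAt (EE n) x).symm y)) (chartAt (EE n) x x) v = 0 := by
      rw [← mf_eq hψ₀ x v]
      exact h1
    set y₀ := chartAt (EE n) x x with hy₀
    have hsx : (chartAt (EE n) x).symm y₀ = x := (chartAt (EE n) x).left_inv (mem_chart_source _ x)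
    have hG := (loc_diff h.sg x).hasFDerivAt
    have hw0 : P (g ((chartAt (EE n) x).symm y₀)) ≠ 0 := hP0 _
    obtain ⟨D, hD, hDu⟩ := nrm_deriv hw0
    have hPG : HasFDerivAt (fun y => P (g ((chartAt (EE n) x).symm y)))
        (P.comp (fderiv ℝ (fun y => g ((chartAt (EE n) x).symm y)) y₀)) y₀ :=
      P.hasFDerivAt.comp y₀ hG
    have hcomp := (HasFDerivAt.comp (g := fun w : EE (n + 1) => ‖w‖⁻¹ • w) y₀ hD hPG).fderiv
    have h4 : fderiv ℝ (fun y => ψ₀ ((chartAt (EE n) x).symm y)) y₀ v =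
        D (P (fderiv ℝ (fun y => g ((chartAt (EE n) x).symm y)) y₀ v)) := by
      have := congrArg (fun L : EE n →L[ℝ] EE (n + 1) => L v) hcomp
      exact this
    rw [h4] at h1'
    obtain ⟨c, hc⟩ := hDu _ h1'
    rw [hsx] at hc
    set d := fderiv ℝ (fun y => g ((chartAt (EE n) x).symm y)) y₀ v with hd
    have h5 : P (d - c • g x) = 0 := by
      rw [map_sub, map_smul, hc, sub_self]
    obtain ⟨μ, hμ⟩ := (hP _).1 h5
    have h6 : d = c • g x + μ • e := by
      rw [← hμ]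
      abel
    -- `d ⟂ η x`
    have hyt : y₀ ∈ (chartAt (EE n) x).target := mem_chart_target _ x
    have h7 := h.tη x y₀ hyt v
    rw [hsx, ← hd, h6, inner_add_left, real_inner_smul_left, real_inner_smul_left, h.gη x,
      mul_zero, zero_add] at h7
    have h8 : μ = 0 := (mul_eq_zero.1 h7).resolve_right (heη x).ne'
    -- `d ⟂ g x`
    have h9 : (inner ℝ (g x) d : ℝ) = 0 := by
      have k1 : (fun y => (inner ℝ (g ((chartAt (EE n) x).symm y))
          (g ((chartAt (EE n) x).symm y)) : ℝ)) = fun _ => 1 := by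
        funext y
        rw [real_inner_self_eq_norm_sq, h.ng, one_pow]
      have k2 := (hG.inner ℝ hG).fderiv
      have k3 := congrArg (fun L : EE n →L[ℝ] ℝ => L v) k2
      rw [k1] at k3
      have k4 : (0 : ℝ) = (inner ℝ (g x) d : ℝ) + (inner ℝ d (g x) : ℝ) := by
        have k5 : (fderiv ℝ (fun _ : EE n => (1 : ℝ)) y₀) v = 0 := by
          rw [fderiv_fun_const]
          rfl
        have k6 : (inner ℝ (g ((chartAt (EE n) x).symm y₀)) d : ℝ) +
            (inner ℝ d (g ((chartAt (EE n) x).symm y₀)) : ℝ) = 0 := k3.symm.trans k5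
        rw [hsx] at k6
        exact k6.symm
      rw [real_inner_comm] at k4
      rw [real_inner_comm]
      linarith
    rw [h8, zero_smul, add_zero] at h6
    rw [h6, inner_smul_right, real_inner_self_eq_norm_sq, h.ng, one_pow, mul_one] at h9
    rw [h9, zero_smul] at h6
    by_contra hv0
    have h10 := h.df x y₀ hyt v hv0
    rw [← hd, h6, inner_zero_left] at h10
    exact lt_irrefl _ h10
  have hloc := hKLO n M (Metric.sphere (0 : EE (n + 1)) 1) ψ hψ hinj
  -- injective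
  have hpos : ∀ x, 0 < ‖P (g x)‖ := fun x => norm_pos_iff.2 (hP0 x)
  have hψinj : Function.Injective ψ := by
    intro x y hxy
    have h1 : ψ₀ x = ψ₀ y := congrArg Subtype.val hxy
    rw [hψ₀def] at h1
    simp only at h1
    have h2 : P (g x) = (‖P (g x)‖ / ‖P (g y)‖) • P (g y) := by
      have h3 := congrArg (fun w => ‖P (g x)‖ • w) h1
      simp only [smul_smul] at h3
      rw [mul_inv_cancel₀ (hpos x).ne', one_smul] at h3
      rw [div_eq_mul_inv]
      exact h3
    set b := ‖P (g x)‖ / ‖P (g y)‖ with hb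
    have hb0 : 0 < b := div_pos (hpos x) (hpos y)
    obtain ⟨a, ha⟩ := (hP (g x - b • g y)).1 (by rw [map_sub, map_smul, ← h2, sub_self])
    have h3 : g x = a • e + b • g y := by
      rw [← ha]
      abel
    rcases le_or_gt 0 a with h4 | h4
    · exact hKIN n hn M g η h e heη x y a b h4 hb0 h3
    · refine (hKIN n hn M g η h e heη y x (-a / b) (1 / b) ?_ ?_ ?_).symm
      · exact div_nonneg (by linarith) hb0.le
      · exact one_div_pos.2 hb0
      · rw [h3, smul_add, smul_smul, smul_smul, ← add_assoc, ← add_smul]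
        have e1 : -a / b + 1 / b * a = 0 := by
          field_simp
          ring
        have e2 : 1 / b * b = 1 := by field_simp
        rw [e1, e2, zero_smul, one_smul, zero_add]
  -- surjective
  have hψsurj : Function.Surjective ψ := by
    have hconn : ConnectedSpace (Metric.sphere (0 : EE (n + 1)) 1) := by
      rw [← isConnected_iff_connectedSpace]
      refine isConnected_sphere ?_ _ zero_le_one
      rw [← Module.finrank_eq_rank]
      have : Module.finrank ℝ (EE (n + 1)) = n + 1 := by simp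
      rw [this]
      exact_mod_cast (by omega : 1 < n + 1)
    have h1 : IsClopen (range ψ) :=
      ⟨(isCompact_range hψ.continuous).isClosed, hloc.isOpen_range⟩
    rw [← Set.range_eq_univ]
    have hne : Nonempty M := inferInstance
    exact h1.eq_univ (range_nonempty ψ)
  exact ⟨hloc.diffeomorphOfBijective ⟨hψinj, hψsurj⟩⟩

end Helper76.HSF
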